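import Mathlib

/-!
# d-intersecting families of chains of subsets (MP_63ed06_co)
-/

namespace Pool.Agent.V11300.CH

open Finset

/-- A chain in `[n]`: a nonempty finite set of subsets of `Fin n`, any two of which are comparable
(equivalently a strictly increasing sequence `A₁ ⊊ ⋯ ⊊ A_m`, `m ≥ 1`). -/
def IsCh (n : ℕ) (C : Finset (Finset (Fin n))) : Prop :=
  C.Nonempty ∧ IsChain (· ⊆ ·) (C : Set (Finset (Fin n)))

/-- A `d`-intersecting family of chains in `[n]`. -/
def DInt (n d : ℕ) (F : Finset (Finset (Finset (Fin n)))) : Prop :=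
  (∀ C ∈ F, IsCh n C) ∧ ∀ C ∈ F, ∀ C' ∈ F, d ≤ (C ∩ C').card

/-- An optimal (largest) `d`-intersecting family of chains in `[n]`. -/
def Optimal (n d : ℕ) (F : Finset (Finset (Finset (Fin n)))) : Prop :=
  DInt n d F ∧ ∀ G, DInt n d G → G.card ≤ F.card

/-- `X_j = {1, …, j}` (the first `j` elements of `Fin n`). -/
def X (n j : ℕ) : Finset (Fin n) := univ.filter (fun i => (i : ℕ) < j)

lemma card_X {n j : ℕ} (h : j ≤ n) : (X n j).card = j := by
  unfold X
  have := Fin.card_filter_val_lt (n := n) (m := j)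
  rw [this]; omega

lemma X_mono {n : ℕ} {i j : ℕ} (h : i ≤ j) : X n i ⊆ X n j := by
  intro a ha
  simp only [X, mem_filter, mem_univ, true_and] at ha ⊢
  omega

lemma X_self (n : ℕ) : X n n = univ := by
  ext a; simp [X]

open Classical in
/-- All chains through `X_0, …, X_{d-2}` and `[n]`. -/
noncomputable def G (n d : ℕ) : Finset (Finset (Finset (Fin n))) :=
  univ.filter (fun C => IsCh n C ∧ (∀ j < d - 1, X n j ∈ C) ∧ univ ∈ C)

/-- The smallest member of `G`. -/
def c0 (n d : ℕ) : Finset (Finset (Fin n)) := (insert n (range (d - 1))).image (X n)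

lemma card_c0 {n d : ℕ} (h1 : 1 ≤ d) (hd : d ≤ n) : (c0 n d).card = d := by
  unfold c0
  rw [card_image_of_injOn, card_insert_of_notMem, card_range]
  · omega
  · simp; omega
  · intro i hi j hj hij
    have hi' : i ≤ n := by
      simp at hi; omega
    have hj' : j ≤ n := by
      simp at hj; omega
    have h := congrArg Finset.card hij
    rwa [card_X hi', card_X hj'] at h

lemma mem_c0 {n d : ℕ} {s : Finset (Fin n)} :
    s ∈ c0 n d ↔ s = univ ∨ ∃ j < d - 1, s = X n j := by
  unfold c0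
  simp only [image_insert, mem_insert, X_self, mem_image, mem_range]
  constructor
  · rintro (h | ⟨j, hj, rfl⟩)
    · exact Or.inl h
    · exact Or.inr ⟨j, hj, rfl⟩
  · rintro (h | ⟨j, hj, rfl⟩)
    · exact Or.inl h
    · exact Or.inr ⟨j, hj, rfl⟩

lemma c0_mem_G (n d : ℕ) : c0 n d ∈ G n d := by
  classical
  unfold G
  simp only [mem_filter, mem_univ, true_and]
  refine ⟨⟨⟨univ, mem_c0.2 (Or.inl rfl)⟩, ?_⟩, ?_, mem_c0.2 (Or.inl rfl)⟩
  · intro s hs t ht _
    rw [mem_coe, mem_c0] at hs ht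
    rcases hs with rfl | ⟨i, _, rfl⟩
    · exact Or.inr (subset_univ _)
    · rcases ht with rfl | ⟨j, _, rfl⟩
      · exact Or.inl (subset_univ _)
      · rcases le_total i j with h | h
        · exact Or.inl (X_mono h)
        · exact Or.inr (X_mono h)
  · intro j hj
    exact mem_c0.2 (Or.inr ⟨j, hj, rfl⟩)

lemma G_dint {n d : ℕ} (h1 : 1 ≤ d) (hd : d ≤ n) : DInt n d (G n d) := by
  classical
  refine ⟨fun C hC => ?_, fun C hC C' hC' => ?_⟩
  · exact (mem_filter.1 hC).2.1
  · have h : c0 n d ⊆ C ∩ C' := by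
      intro s hs
      have a := (mem_filter.1 hC).2.2
      have b := (mem_filter.1 hC').2.2
      rcases mem_c0.1 hs with rfl | ⟨j, hj, rfl⟩
      · exact mem_inter.2 ⟨a.2, b.2⟩
      · exact mem_inter.2 ⟨a.1 j hj, b.1 j hj⟩
    calc d = (c0 n d).card := (card_c0 h1 hd).symm
      _ ≤ _ := card_le_card h

open Classical in
/-- The members of `G` containing `X_{d-2} ∪ {i}`. -/
noncomputable def A (n d : ℕ) (i : Fin n) : Finset (Finset (Finset (Fin n))) :=
  (G n d).filter (fun C => insert i (X n (d - 2)) ∈ C)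

lemma card_ins {n d : ℕ} (h2 : 2 ≤ d) (hd : d ≤ n) {i : Fin n} (hi : d - 2 ≤ (i : ℕ)) :
    (insert i (X n (d - 2))).card = d - 1 := by
  rw [card_insert_of_notMem, card_X (by omega)]
  · omega
  · simp only [X, mem_filter, mem_univ, true_and]; omega

lemma A_disj {n d : ℕ} (h2 : 2 ≤ d) (hd : d ≤ n) {i j : Fin n} (hi : d - 2 ≤ (i : ℕ))
    (hj : d - 2 ≤ (j : ℕ)) (hij : i ≠ j) : Disjoint (A n d i) (A n d j) := by
  classical
  rw [Finset.disjoint_left]
  intro C hC hC'
  have hG := (mem_filter.1 (mem_filter.1 hC).1).2.1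
  have m1 := (mem_filter.1 hC).2
  have m2 := (mem_filter.1 hC').2
  have hne : insert i (X n (d - 2)) ≠ insert j (X n (d - 2)) := by
    intro h
    have : i ∈ insert j (X n (d - 2)) := h ▸ mem_insert_self _ _
    rcases mem_insert.1 this with h' | h'
    · exact hij h'
    · simp only [X, mem_filter, mem_univ, true_and] at h'; omega
  have c1 := card_ins h2 hd hi
  have c2 := card_ins h2 hd hj
  rcases hG.2 (mem_coe.2 m1) (mem_coe.2 m2) hne with h | h
  · exact hne (eq_of_subset_of_card_le h (by omega))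
  · exact hne (eq_of_subset_of_card_le h (by omega)).symm

/-- A permutation of the points acts on families. -/
def act {n : ℕ} (σ : Equiv.Perm (Fin n)) (C : Finset (Finset (Fin n))) : Finset (Finset (Fin n)) :=
  C.map (Finset.mapEmbedding σ.toEmbedding).toEmbedding

lemma mem_act {n : ℕ} (σ : Equiv.Perm (Fin n)) {C : Finset (Finset (Fin n))}
    {s : Finset (Fin n)} : s ∈ act σ C ↔ ∃ t ∈ C, t.map σ.toEmbedding = s := by
  unfold act
  simp [Finset.mapEmbedding]

lemma act_isCh {n : ℕ} (σ : Equiv.Perm (Fin n)) {C : Finset (Finset (Fin n))} (h : IsCh n C) :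
    IsCh n (act σ C) := by
  refine ⟨?_, ?_⟩
  · obtain ⟨s, hs⟩ := h.1
    exact ⟨_, (mem_act σ).2 ⟨s, hs, rfl⟩⟩
  · intro s hs t ht hst
    rw [mem_coe, mem_act] at hs ht
    obtain ⟨a, ha, rfl⟩ := hs
    obtain ⟨b, hb, rfl⟩ := ht
    have hab : a ≠ b := fun h => hst (h ▸ rfl)
    rcases h.2 (mem_coe.2 ha) (mem_coe.2 hb) hab with h' | h'
    · exact Or.inl (Finset.map_subset_map.2 h')
    · exact Or.inr (Finset.map_subset_map.2 h')

lemma map_X_swap {n k : ℕ} {a b : Fin n} (ha : k ≤ (a : ℕ)) (hb : k ≤ (b : ℕ)) :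
    (X n k).map (Equiv.swap a b).toEmbedding = X n k := by
  ext x
  simp only [mem_map, Equiv.coe_toEmbedding]
  constructor
  · rintro ⟨y, hy, rfl⟩
    simp only [X, mem_filter, mem_univ, true_and] at hy
    rw [Equiv.swap_apply_of_ne_of_ne]
    · simpa [X] using hy
    · rintro rfl; omega
    · rintro rfl; omega
  · intro hx
    have hx' := hx
    simp only [X, mem_filter, mem_univ, true_and] at hx'
    refine ⟨x, hx, ?_⟩
    rw [Equiv.swap_apply_of_ne_of_ne]
    · rintro rfl; omega
    · rintro rfl; omega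

lemma A_card_le {n d : ℕ} (h2 : 2 ≤ d) (hd : d ≤ n) {i : Fin n} (hi : d - 2 ≤ (i : ℕ)) :
    (A n d ⟨d - 2, by omega⟩).card ≤ (A n d i).card := by
  classical
  set a : Fin n := ⟨d - 2, by omega⟩ with ha
  refine card_le_card_of_injOn (act (Equiv.swap a i)) ?_ ?_
  · intro C hC
    have hC1 := mem_filter.1 (mem_coe.1 hC)
    have hG := (mem_filter.1 hC1.1).2
    have hav : (a : ℕ) = d - 2 := rfl
    rw [mem_coe]
    unfold A
    rw [mem_filter]
    refine ⟨?_, ?_⟩
    · unfold G
      rw [mem_filter]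
      refine ⟨mem_univ _, act_isCh _ hG.1, ?_, ?_⟩
      · intro j hj
        rw [mem_act]
        refine ⟨_, hG.2.1 j hj, ?_⟩
        exact map_X_swap (by omega) (by omega)
      · rw [mem_act]
        refine ⟨_, hG.2.2, ?_⟩
        simp
    · rw [mem_act]
      refine ⟨_, hC1.2, ?_⟩
      rw [Finset.map_insert, map_X_swap (by omega) (by omega)]
      simp
  · intro C _ C' _ h
    exact Finset.map_injective _ h

lemma ins_base {n d : ℕ} (h2 : 2 ≤ d) (hd : d ≤ n) :
    insert (⟨d - 2, by omega⟩ : Fin n) (X n (d - 2)) = X n (d - 1) := by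
  ext x
  simp only [X, mem_insert, mem_filter, mem_univ, true_and, Fin.ext_iff]
  omega

lemma star_card {n d : ℕ} (h2 : 2 ≤ d) (hd : d ≤ n) (F : Finset (Finset (Finset (Fin n))))
    (hF : ∀ C ∈ F, IsCh n C) (hX : ∀ C ∈ F, ∀ j < d, X n j ∈ C) :
    F.card ≤ 2 * (A n d ⟨d - 2, by omega⟩).card := by
  classical
  have h1 : (F.filter (fun C => univ ∈ C)).card ≤ (A n d ⟨d - 2, by omega⟩).card := by
    apply card_le_card
    intro C hC
    rw [mem_filter] at hC
    unfold A G
    rw [mem_filter, mem_filter, ins_base h2 hd]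
    exact ⟨⟨mem_univ _, hF C hC.1, fun j hj => hX C hC.1 j (by omega), hC.2⟩,
      hX C hC.1 (d - 1) (by omega)⟩
  have h3 : (F.filter (fun C => ¬ univ ∈ C)).card ≤ (A n d ⟨d - 2, by omega⟩).card := by
    refine card_le_card_of_injOn (fun C => insert univ C) ?_ ?_
    · intro C hC
      rw [mem_coe, mem_filter] at hC
      rw [mem_coe]
      unfold A G
      rw [mem_filter, mem_filter, ins_base h2 hd]
      refine ⟨⟨mem_univ _, ⟨⟨univ, mem_insert_self _ _⟩, ?_⟩,
        fun j hj => mem_insert_of_mem (hX C hC.1 j (by omega)), mem_insert_self _ _⟩,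
        mem_insert_of_mem (hX C hC.1 (d - 1) (by omega))⟩
      rw [coe_insert]
      exact (hF C hC.1).2.insert (fun b _ _ => Or.inr (subset_univ _))
    · intro C hC C' hC' h
      rw [mem_coe, mem_filter] at hC hC'
      have := congrArg (fun s => s.erase univ) h
      simpa [erase_insert hC.2, erase_insert hC'.2] using this
  have h4 := card_filter_add_card_filter_not (s := F) (fun C => univ ∈ C)
  omega

lemma sum_A {n d : ℕ} (h2 : 2 ≤ d) (hd : d ≤ n) :
    (n - d + 2) * (A n d ⟨d - 2, by omega⟩).card + 1 ≤ (G n d).card := by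
  classical
  set I : Finset (Fin n) := univ.filter (fun i => d - 2 ≤ (i : ℕ)) with hI
  have hIc : I.card = n - d + 2 := by
    have h := card_filter_add_card_filter_not (s := (univ : Finset (Fin n)))
      (fun i => (i : ℕ) < d - 2)
    have h' : (univ.filter (fun i : Fin n => ¬ (i : ℕ) < d - 2)) = I := by
      rw [hI]; congr 1; ext i; simp
    rw [h', card_univ, Fintype.card_fin] at h
    have h3 := card_X (n := n) (j := d - 2) (by omega)
    unfold X at h3
    omega
  have hsub : I.biUnion (A n d) ⊆ (G n d).erase (c0 n d) := by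
    intro C hC
    rw [mem_biUnion] at hC
    obtain ⟨i, hi, hC⟩ := hC
    have hi' : d - 2 ≤ (i : ℕ) := (mem_filter.1 hi).2
    have hC' := mem_filter.1 hC
    refine mem_erase.2 ⟨?_, hC'.1⟩
    rintro rfl
    have hc := card_ins h2 hd hi'
    rcases mem_c0.1 hC'.2 with h | ⟨j, hj, h⟩
    · rw [h, card_univ, Fintype.card_fin] at hc; omega
    · rw [h, card_X (by omega)] at hc; omega
  have hcard := card_le_card hsub
  rw [card_biUnion, card_erase_of_mem (c0_mem_G n d)] at hcard
  · have hle : I.card * (A n d ⟨d - 2, by omega⟩).card ≤ ∑ i ∈ I, (A n d i).card := by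
      rw [← smul_eq_mul, ← sum_const]
      exact sum_le_sum (fun i hi => A_card_le h2 hd (mem_filter.1 hi).2)
    have hpos : 0 < (G n d).card := card_pos.2 ⟨_, c0_mem_G n d⟩
    rw [hIc] at hle
    omega
  · intro i hi j hj hij
    exact A_disj h2 hd (mem_filter.1 hi).2 (mem_filter.1 hj).2 hij

/-- The comparison between stars on initial segments and the family `G`. -/
theorem star_bound {n d : ℕ} (h2 : 2 ≤ d) (hd : d ≤ n) (F : Finset (Finset (Finset (Fin n))))
    (hF : ∀ C ∈ F, IsCh n C) (hX : ∀ C ∈ F, ∀ j < d, X n j ∈ C) :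
    (n - d + 2) * F.card + 2 ≤ 2 * (G n d).card := by
  have h1 := star_card h2 hd F hF hX
  have h3 := sum_A h2 hd
  have h4 : (n - d + 2) * F.card ≤ (n - d + 2) * (2 * (A n d ⟨d - 2, by omega⟩).card) :=
    Nat.mul_le_mul_left _ h1
  have h5 : (n - d + 2) * (2 * (A n d ⟨d - 2, by omega⟩).card)
      = 2 * ((n - d + 2) * (A n d ⟨d - 2, by omega⟩).card) := by ring
  omega

theorem not_optimal {n d : ℕ} (h2 : 2 ≤ d) (hd : d ≤ n) :
    ¬ ∃ F, Optimal n d F ∧ ∀ C ∈ F, ∀ j < d, X n j ∈ C := by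
  rintro ⟨F, hF, hX⟩
  have h := star_bound h2 hd F hF.1.1 hX
  have h' := hF.2 _ (G_dint (by omega) hd)
  have h3 : 2 * F.card ≤ (n - d + 2) * F.card := Nat.mul_le_mul_right _ (by omega)
  omega

end Pool.Agent.V11300.CH
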